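import Mathlib

/-!
# Banach density and piecewise syndetic sets in amenable groups: definitions of MP_b01501_co
-/

set_option autoImplicit false

namespace Pool.Agent.Helper14.PwSynd

open scoped Pointwise

section Definitions

variable {G : Type*} [Group G]

/-- `K` is a finite nonempty `(H, ε)`-invariant set: `|hK △ K| < ε |K|` for all `h ∈ H`. -/
def Invariant (H : Finset G) (ε : ℝ) (K : Finset G) : Prop :=
  K.Nonempty ∧ ∀ h ∈ H, ((symmDiff (h • (K : Set G)) (K : Set G)).ncard : ℝ) < ε * K.card

/-- `G` is amenable (Følner's condition). -/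
def Amenable (G : Type*) [Group G] : Prop :=
  ∀ (H : Finset G) (ε : ℝ), 0 < ε → ∃ K : Finset G, Invariant H ε K

/-- The (upper) Banach density of `A`. -/
noncomputable def density (A : Set G) : ℝ :=
  sSup {α : ℝ | ∀ (H : Finset G) (ε : ℝ), 0 < ε →
    ∃ K : Finset G, Invariant H ε K ∧ α * K.card ≤ ((A ∩ (K : Set G)).ncard : ℝ)}

/-- `A` is thick: it contains a right translate `H x` of every finite set `H`. -/
def Thick (A : Set G) : Prop := ∀ H : Finset G, ∃ x : G, ∀ h ∈ H, h * x ∈ A

/-- `A` is piecewise `k`-syndetic: `F A` is thick for some `F` with at most `k` elements. -/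
def PiecewiseSyndetic (k : ℕ) (A : Set G) : Prop :=
  ∃ F : Finset G, F.card ≤ k ∧ Thick ((F : Set G) * A)

end Definitions

end Pool.Agent.Helper14.PwSynd
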