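import Pool.Agent.Helper14.PwSynd.Defs

/-!
# `A B⁻¹` need not be piecewise syndetic in an amenable group

`G` is the group of finitely supported permutations of `ℕ` (countable, locally finite, amenable).
For every `c` we construct `A, B ⊆ G` with `d(A) ≥ 1 - 1/c`, `d(B) = 1` such that for every
finite `F ⊆ G` the set `F A B⁻¹` is not thick.
-/

set_option autoImplicit false

namespace Pool.Agent.Helper14.PwSynd

open scoped Pointwise


/-! ## Permutations fixing everything from `n` on -/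

open Equiv

/-- `σ` fixes every `k ≥ n`. -/
def Fix (n : ℕ) (σ : Perm ℕ) : Prop := ∀ k, n ≤ k → σ k = k

lemma Fix.one (n : ℕ) : Fix n 1 := fun _ _ => rfl

lemma Fix.mul {n : ℕ} {σ τ : Perm ℕ} (h1 : Fix n σ) (h2 : Fix n τ) : Fix n (σ * τ) := by
  intro k hk; simp [Perm.mul_apply, h2 k hk, h1 k hk]

lemma Fix.inv {n : ℕ} {σ : Perm ℕ} (h : Fix n σ) : Fix n σ⁻¹ := by
  intro k hk; rw [Perm.inv_eq_iff_eq]; exact (h k hk).symm

lemma Fix.mono {n m : ℕ} {σ : Perm ℕ} (h : Fix n σ) (hnm : n ≤ m) : Fix m σ :=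
  fun k hk => h k (hnm.trans hk)

lemma Fix.lt {n : ℕ} {σ : Perm ℕ} (h : Fix n σ) {k : ℕ} (hk : k < n) : σ k < n := by
  by_contra hc
  have h1 := h (σ k) (not_lt.mp hc)
  have h2 : σ k = k := σ.injective h1
  omega

lemma Fix.swap {n u v : ℕ} (hu : u < n) (hv : v < n) : Fix n (Equiv.swap u v) := by
  intro k hk
  exact Equiv.swap_apply_of_ne_of_ne (by omega) (by omega)

/-- The group of finitely supported permutations of `ℕ`. -/
def FS : Subgroup (Perm ℕ) where
  carrier := {σ | ∃ n, Fix n σ}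
  one_mem' := ⟨0, Fix.one 0⟩
  mul_mem' := by
    rintro σ τ ⟨n, hn⟩ ⟨m, hm⟩
    exact ⟨max n m, (hn.mono (le_max_left _ _)).mul (hm.mono (le_max_right _ _))⟩
  inv_mem' := by
    rintro σ ⟨n, hn⟩
    exact ⟨n, hn.inv⟩

lemma finite_fix (n : ℕ) : {σ : FS | Fix n (σ : Perm ℕ)}.Finite := by
  rw [← Set.finite_coe_iff]
  let f : {σ : FS | Fix n (σ : Perm ℕ)} → (Fin n → Fin n) :=
    fun σ k => ⟨((σ : FS) : Perm ℕ) k, σ.2.lt k.2⟩
  refine Finite.of_injective f ?_
  intro σ τ h
  apply Subtype.ext; apply Subtype.ext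
  apply Equiv.ext
  intro k
  by_cases hk : k < n
  · have := congrFun h ⟨k, hk⟩
    simpa [f] using this
  · rw [σ.2 k (not_lt.mp hk), τ.2 k (not_lt.mp hk)]

/-- The finite subgroup of permutations of `{0, …, n-1}` as a finite set. -/
noncomputable def Gn (n : ℕ) : Finset FS := (finite_fix n).toFinset

lemma mem_Gn {n : ℕ} {σ : FS} : σ ∈ Gn n ↔ Fix n (σ : Perm ℕ) := by
  simp [Gn]

lemma one_mem_Gn (n : ℕ) : (1 : FS) ∈ Gn n := mem_Gn.2 (Fix.one n)

/-- Every finite set is contained in some `Gn`. -/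
lemma exists_Gn (H : Finset FS) : ∃ n, ∀ N, n ≤ N → H ⊆ Gn N := by
  classical
  induction H using Finset.induction_on with
  | empty => exact ⟨0, fun N _ => by simp⟩
  | insert a s _ ih =>
    obtain ⟨n, hn⟩ := ih
    obtain ⟨m, hm⟩ := a.2
    refine ⟨max n m, fun N hN => ?_⟩
    intro x hx
    rw [Finset.mem_insert] at hx
    rcases hx with rfl | hx
    · exact mem_Gn.2 (hm.mono ((le_max_right _ _).trans hN))
    · exact hn N ((le_max_left _ _).trans hN) hx

/-- A right coset `Gn n * g` is `(H, ε)`-invariant for `H ⊆ Gn n`. -/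
lemma invariant_coset (H : Finset FS) (ε : ℝ) (hε : 0 < ε) (n : ℕ) (hn : H ⊆ Gn n) (g : FS) :
    Invariant H ε ((Gn n).map (mulRightEmbedding g)) := by
  refine ⟨⟨1 * g, Finset.mem_map.2 ⟨1, one_mem_Gn n, rfl⟩⟩, fun h hh => ?_⟩
  have h1 : h • (((Gn n).map (mulRightEmbedding g) : Finset FS) : Set FS) =
      (((Gn n).map (mulRightEmbedding g) : Finset FS) : Set FS) := by
    have hf := mem_Gn.1 (hn hh)
    ext x
    simp only [Set.mem_smul_set, Finset.mem_coe, Finset.mem_map, mulRightEmbedding_apply,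
      smul_eq_mul]
    constructor
    · rintro ⟨y, ⟨z, hz, rfl⟩, rfl⟩
      exact ⟨h * z, mem_Gn.2 (hf.mul (mem_Gn.1 hz)), by group⟩
    · rintro ⟨z, hz, rfl⟩
      exact ⟨h⁻¹ * z * g, ⟨h⁻¹ * z, mem_Gn.2 (hf.inv.mul (mem_Gn.1 hz)), rfl⟩, by group⟩
  rw [h1, symmDiff_self]
  have h2 : 0 < ((Gn n).map (mulRightEmbedding g)).card := by
    rw [Finset.card_map]; exact Finset.card_pos.2 ⟨1, one_mem_Gn n⟩
  have h3 : (0 : ℝ) < (((Gn n).map (mulRightEmbedding g)).card : ℝ) := by exact_mod_cast h2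
  simpa using mul_pos hε h3

theorem amenable_FS : Amenable FS := by
  intro H ε hε
  obtain ⟨n, hn⟩ := exists_Gn H
  exact ⟨_, invariant_coset H ε hε n (hn n le_rfl) 1⟩

/-! ## Block swaps -/

/-- The involution exchanging `[0, s)` and `[s, 2s)`. -/
def blkFun (s k : ℕ) : ℕ := if k < s then k + s else if k < 2 * s then k - s else k

lemma blkFun_invol (s : ℕ) : Function.Involutive (blkFun s) := by
  intro k; unfold blkFun; split_ifs <;> omega

/-- The block swap as a permutation. -/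
def blk (s : ℕ) : Perm ℕ := (blkFun_invol s).toPerm

lemma blk_apply (s k : ℕ) : blk s k = blkFun s k := rfl

lemma blk_mul_self (s : ℕ) : blk s * blk s = 1 := by
  ext k; simp [Perm.mul_apply, blk_apply, blkFun_invol s k]

lemma blk_inv (s : ℕ) : (blk s)⁻¹ = blk s := inv_eq_of_mul_eq_one_left (blk_mul_self s)

lemma fix_blk (s : ℕ) : Fix (2 * s) (blk s) := by
  intro k hk; rw [blk_apply]; unfold blkFun; split_ifs <;> omega

lemma blk_zero : blk 0 = 1 := by
  ext k; rw [blk_apply]; unfold blkFun; split_ifs <;> simp_all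

/-- conjugate of a permutation fixing `≥ q` (`q ≤ t`) by `blk t` fixes `[0, t)`. -/
lemma conj_fix {t q : ℕ} (hq : q ≤ t) {b : Perm ℕ} (hb : Fix q b) {k : ℕ} (hk : k < t) :
    (blk t * b * blk t) k = k := by
  have h1 : blk t k = k + t := by rw [blk_apply]; unfold blkFun; split_ifs; rfl
  have h2 : blk t (k + t) = k := by rw [blk_apply]; unfold blkFun; split_ifs <;> omega
  rw [Perm.mul_apply, Perm.mul_apply, h1, hb _ (by omega), h2]

/-- `M` is the largest point moved by `w`. -/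
def Top (w : Perm ℕ) (M : ℕ) : Prop := w M ≠ M ∧ ∀ k, M < k → w k = k

lemma Top.unique {w : Perm ℕ} {M N : ℕ} (h1 : Top w M) (h2 : Top w N) : M = N := by
  rcases lt_trichotomy M N with h | h | h
  · exact absurd (h1.2 N h) h2.1
  · exact h
  · exact absurd (h2.2 M h) h1.1

lemma Top.lt_of_fix {w : Perm ℕ} {M n : ℕ} (h1 : Top w M) (h2 : Fix n w) : M < n := by
  by_contra h
  exact h1.1 (h2 M (not_lt.mp h))

lemma top_left {s t p q : ℕ} (hs : 0 < s) (hts : 2 * t ≤ s) (hp : p ≤ s) (hq : q ≤ t)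
    {a b : Perm ℕ} (ha : Fix p a) (hb : Fix q b) : Top (a * blk s * blk t * b) (2 * s - 1) := by
  constructor
  · have h1 : b (2 * s - 1) = 2 * s - 1 := hb _ (by omega)
    have h2 : blk t (2 * s - 1) = 2 * s - 1 := fix_blk t _ (by omega)
    have h3 : blk s (2 * s - 1) = s - 1 := by
      rw [blk_apply]; unfold blkFun; split_ifs <;> omega
    have h4 : a (s - 1) < s := (ha.mono hp).lt (by omega)
    rw [Perm.mul_apply, Perm.mul_apply, Perm.mul_apply, h1, h2, h3]
    omega
  · intro k hk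
    rw [Perm.mul_apply, Perm.mul_apply, Perm.mul_apply, hb _ (by omega),
      fix_blk t _ (by omega), fix_blk s _ (by omega), ha _ (by omega)]

lemma top_right {s t p q : ℕ} (ht : 0 < t) (hst : 2 * s ≤ t) (hp : p ≤ t) (hq : q ≤ t)
    {a b : Perm ℕ} (ha : Fix p a) (hb : Fix q b) : Top (a * blk s * blk t * b) (2 * t - 1) := by
  constructor
  · have h1 : b (2 * t - 1) = 2 * t - 1 := hb _ (by omega)
    have h2 : blk t (2 * t - 1) = t - 1 := by
      rw [blk_apply]; unfold blkFun; split_ifs <;> omega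
    have h3 : blk s (t - 1) < t := ((fix_blk s).mono hst).lt (by omega)
    have h4 : a (blk s (t - 1)) < t := (ha.mono hp).lt h3
    rw [Perm.mul_apply, Perm.mul_apply, Perm.mul_apply, h1, h2]
    omega
  · intro k hk
    rw [Perm.mul_apply, Perm.mul_apply, Perm.mul_apply, hb _ (by omega),
      fix_blk t _ (by omega), fix_blk s _ (by omega), ha _ (by omega)]

/-- size of the `i`-th swap used for `A` -/
def sA (i : ℕ) : ℕ := 4 ^ (2 * i + 1)

/-- size of the `j`-th swap used for `B` -/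
def sB (j : ℕ) : ℕ := 4 ^ (2 * j + 2)

lemma lt_sA (i : ℕ) : i < sA i := by
  unfold sA
  calc i < 4 ^ i := Nat.lt_pow_self (by norm_num)
    _ ≤ 4 ^ (2 * i + 1) := Nat.pow_le_pow_right (by norm_num) (by omega)

lemma lt_sB (i : ℕ) : i < sB i := by
  unfold sB
  calc i < 4 ^ i := Nat.lt_pow_self (by norm_num)
    _ ≤ 4 ^ (2 * i + 2) := Nat.pow_le_pow_right (by norm_num) (by omega)

lemma pow_cmp {a b : ℕ} (h : 4 ^ a < 4 ^ b) : 2 * 4 ^ a ≤ 4 ^ b := by
  have h1 : a < b := (Nat.pow_lt_pow_iff_right (by norm_num)).1 h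
  calc 2 * 4 ^ a ≤ 4 ^ (a + 1) := by rw [pow_succ]; omega
    _ ≤ 4 ^ b := Nat.pow_le_pow_right (by norm_num) h1

lemma pow_inj {a b : ℕ} (h : 4 ^ a = 4 ^ b) : a = b := Nat.pow_right_injective (le_refl _ |>.trans (by norm_num)) h

lemma sA_inj {i j : ℕ} (h : sA i = sA j) : i = j := by
  have := pow_inj h; omega

lemma sB_inj {i j : ℕ} (h : sB i = sB j) : i = j := by
  have := pow_inj h; omega

lemma sA_ne_sB (i j : ℕ) : sA i ≠ sB j := by
  intro h; have := pow_inj h; omega

lemma sA_mono {i j : ℕ} (h : i ≤ j) : sA i ≤ sA j :=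
  Nat.pow_le_pow_right (by norm_num) (by omega)

/-- The key rigidity lemma. -/
lemma rigid {m i j i' j' : ℕ} (hm : m ≤ i) {a b a' b' : Perm ℕ} (ha : Fix i a) (hb : Fix j b)
    (ha' : Fix (max i' m) a') (hb' : Fix j' b')
    (h : a * blk (sA i) * blk (sB j) * b = a' * blk (sA i') * blk (sB j') * b') :
    i' = i ∧ a' = a := by
  have hi := lt_sA i
  have hj := lt_sB j
  have hi' := lt_sA i'
  have hj' := lt_sB j'
  -- top of the left side
  have e1 : Top (a * blk (sA i) * blk (sB j) * b) (2 * max (sA i) (sB j) - 1) := by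
    rcases lt_or_gt_of_ne (sA_ne_sB i j) with h1 | h1
    · rw [max_eq_right h1.le]
      have p1 : 2 * sA i ≤ sB j := pow_cmp h1
      exact top_right (by omega) p1 (by omega) hj.le ha hb
    · rw [max_eq_left h1.le]
      have p1 : 2 * sB j ≤ sA i := pow_cmp h1
      exact top_left (by omega) p1 (by omega) hj.le ha hb
  have e1' : Top (a' * blk (sA i') * blk (sB j') * b') (2 * max (sA i) (sB j) - 1) := h ▸ e1
  -- the right side is not too small
  have hbig : m ≤ max (sA i') (sB j') := by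
    by_contra hc
    rw [not_le, max_lt_iff] at hc
    have hfix : Fix (2 * m) (a' * blk (sA i') * blk (sB j') * b') := by
      refine Fix.mul (Fix.mul (Fix.mul (ha'.mono ?_) ((fix_blk _).mono ?_)) ((fix_blk _).mono ?_))
        (hb'.mono ?_)
      · exact max_le (by omega) (by omega)
      · omega
      · omega
      · omega
    have := e1'.lt_of_fix hfix
    have := le_max_left (sA i) (sB j)
    omega
  have e2 : Top (a' * blk (sA i') * blk (sB j') * b') (2 * max (sA i') (sB j') - 1) := by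
    rcases lt_or_gt_of_ne (sA_ne_sB i' j') with h1 | h1
    · rw [max_eq_right h1.le] at hbig ⊢
      have p1 : 2 * sA i' ≤ sB j' := pow_cmp h1
      exact top_right (by omega) p1 (max_le (by omega) hbig) hj'.le ha' hb'
    · rw [max_eq_left h1.le] at hbig ⊢
      have p1 : 2 * sB j' ≤ sA i' := pow_cmp h1
      exact top_left (by omega) p1 (max_le (by omega) hbig) hj'.le ha' hb'
  have e3 := e1'.unique e2
  have e4 : max (sA i) (sB j) = max (sA i') (sB j') := by
    have h1 := le_max_left (sA i) (sB j)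
    have h2 := le_max_left (sA i') (sB j')
    omega
  rcases lt_or_gt_of_ne (sA_ne_sB i j) with h1 | h1 <;>
    rcases lt_or_gt_of_ne (sA_ne_sB i' j') with h2 | h2
  · -- both dominated by the second factor
    rw [max_eq_right h1.le, max_eq_right h2.le] at e4
    have hjj := sB_inj e4
    subst hjj
    have p1 : 2 * sA i ≤ sB j := pow_cmp h1
    have p2 : 2 * sA i' ≤ sB j := pow_cmp h2
    have hmB : max i' m ≤ sB j := max_le (by omega) (by omega)
    -- (a' x')⁻¹ (a x) = y b' b⁻¹ y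
    have e5 : (a' * blk (sA i'))⁻¹ * (a * blk (sA i)) =
        blk (sB j) * (b' * b⁻¹) * blk (sB j) := by
      have h3 : a * blk (sA i) = a' * blk (sA i') * blk (sB j) * b' * b⁻¹ * (blk (sB j))⁻¹ := by
        rw [← h]; group
      rw [h3, blk_inv]; group
    have e6 : (a' * blk (sA i'))⁻¹ * (a * blk (sA i)) = 1 := by
      ext k
      by_cases hk : k < sB j
      · rw [e5, conj_fix hj.le (hb'.mul hb.inv) hk]; rfl
      · have hF : Fix (sB j) ((a' * blk (sA i'))⁻¹ * (a * blk (sA i))) :=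
          Fix.mul (Fix.inv (Fix.mul (ha'.mono hmB) ((fix_blk _).mono p2)))
            (Fix.mul (ha.mono (by omega)) ((fix_blk _).mono p1))
        rw [hF k (not_lt.mp hk)]; rfl
    have e7 : a * blk (sA i) = a' * blk (sA i') := (inv_mul_eq_one.1 e6).symm
    -- compare tops
    have t1 : Top (a * blk (sA i) * blk 0 * 1) (2 * sA i - 1) :=
      top_left (by omega) (by omega) (by omega) (le_refl 0) ha (Fix.one 0)
    rw [blk_zero, mul_one, mul_one] at t1
    have hii : sA i' = sA i := by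
      by_cases hc : m ≤ sA i'
      · have t2 : Top (a' * blk (sA i') * blk 0 * 1) (2 * sA i' - 1) :=
          top_left (by omega) (by omega) (max_le (by omega) hc) (le_refl 0) ha' (Fix.one 0)
        rw [blk_zero, mul_one, mul_one] at t2
        rw [e7] at t1
        have := t1.unique t2
        omega
      · rw [e7] at t1
        have := t1.lt_of_fix (n := 2 * m)
          (Fix.mul (ha'.mono (max_le (by omega) (by omega))) ((fix_blk _).mono (by omega)))
        omega
    have hii' := sA_inj hii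
    subst hii'
    exact ⟨rfl, (mul_right_cancel e7).symm⟩
  · exfalso
    rw [max_eq_right h1.le, max_eq_left h2.le] at e4
    exact sA_ne_sB _ _ e4.symm
  · exfalso
    rw [max_eq_left h1.le, max_eq_right h2.le] at e4
    exact sA_ne_sB _ _ e4
  · -- both dominated by the first factor
    rw [max_eq_left h1.le, max_eq_left h2.le] at e4
    have hii := sA_inj e4
    subst hii
    have p1 : 2 * sB j ≤ sA i := pow_cmp h1
    have p2 : 2 * sB j' ≤ sA i := pow_cmp h2
    rw [max_eq_left hm] at ha'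
    -- (y b)(y' b')⁻¹ = x a⁻¹ a' x
    have e5 : (blk (sB j) * b) * (blk (sB j') * b')⁻¹ =
        blk (sA i) * (a⁻¹ * a') * blk (sA i) := by
      have h3 : blk (sB j) * b =
          (blk (sA i))⁻¹ * a⁻¹ * (a' * blk (sA i) * blk (sB j') * b') := by
        rw [← h]; group
      rw [h3, blk_inv]; group
    have e6 : (blk (sB j) * b) * (blk (sB j') * b')⁻¹ = 1 := by
      ext k
      by_cases hk : k < sA i
      · rw [e5, conj_fix hi.le (ha.inv.mul ha') hk]; rfl
      · have hF : Fix (sA i) ((blk (sB j) * b) * (blk (sB j') * b')⁻¹) :=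
          Fix.mul (Fix.mul ((fix_blk _).mono p1) (hb.mono (by omega)))
            (Fix.inv (Fix.mul ((fix_blk _).mono p2) (hb'.mono (by omega))))
        rw [hF k (not_lt.mp hk)]; rfl
    rw [e6] at e5
    refine ⟨rfl, ?_⟩
    have e7 : a⁻¹ * a' = 1 := by
      have h3 : a⁻¹ * a' = blk (sA i) * (blk (sA i) * (a⁻¹ * a') * blk (sA i)) * blk (sA i) := by
        have := blk_mul_self (sA i)
        calc a⁻¹ * a' = (1 : Perm ℕ) * (a⁻¹ * a') * 1 := by group
          _ = (blk (sA i) * blk (sA i)) * (a⁻¹ * a') * (blk (sA i) * blk (sA i)) := by rw [this]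
          _ = _ := by group
      rw [h3, ← e5, mul_one, blk_mul_self]
    exact (inv_mul_eq_one.1 e7).symm

/-! ## The sets -/

/-- `σ` is in the `k`-th hole at level `M`: among the values `< M`, the one that is taken first
is `< k`. -/
def Hole (k M : ℕ) (σ : Perm ℕ) : Prop := ∃ v < k, ∀ u < M, σ⁻¹ v ≤ σ⁻¹ u

lemma Hole.mul_left {k M : ℕ} (hkM : k ≤ M) {f σ : Perm ℕ} (hf : Fix k f)
    (h : Hole k M (f * σ)) : Hole k M σ := by
  obtain ⟨v, hv, hu⟩ := h
  refine ⟨f⁻¹ v, hf.inv.lt hv, fun u hu' => ?_⟩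
  have := hu (f u) ((hf.mono hkM).lt hu')
  simpa [mul_inv_rev, Perm.mul_apply] using this

lemma exists_hole {k M : ℕ} (hk : 0 < k) (hM : 0 < M) (σ : Perm ℕ) :
    ∃ h : Perm ℕ, Fix M h ∧ Hole k M (h * σ) := by
  obtain ⟨v, hv, hmin⟩ := Finset.exists_min_image (Finset.range M) (fun u => σ⁻¹ u)
    ⟨0, Finset.mem_range.2 hM⟩
  rw [Finset.mem_range] at hv
  refine ⟨Equiv.swap 0 v, Fix.swap hM hv, 0, hk, fun u hu => ?_⟩
  have h1 : (Equiv.swap 0 v * σ)⁻¹ 0 = σ⁻¹ v := by
    rw [mul_inv_rev, Perm.mul_apply, Equiv.swap_inv, Equiv.swap_apply_left]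
  have h2 : (Equiv.swap 0 v * σ)⁻¹ u = σ⁻¹ (Equiv.swap 0 v u) := by
    rw [mul_inv_rev, Perm.mul_apply, Equiv.swap_inv]
  rw [h1, h2]
  exact hmin _ (Finset.mem_range.2 ((Fix.swap hM hv).lt hu))

/-- the level of the `k`-th hole -/
def lev (c k : ℕ) : ℕ := k * 2 ^ k * c

/-- The set `A`. -/
def setA (c : ℕ) : Set FS :=
  {g | ∃ (i : ℕ) (a : Perm ℕ), Fix i a ∧ (∀ k, 0 < k → lev c k ≤ i → ¬ Hole k (lev c k) a) ∧
    (g : Perm ℕ) = a * blk (sA i)}

/-- The set `B`. -/
def setB : Set FS :=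
  {g | ∃ (j : ℕ) (b : Perm ℕ), Fix j b ∧ (g : Perm ℕ) = b * blk (sB j)}

lemma le_lev {c k : ℕ} (hc : 0 < c) : k ≤ lev c k := by
  unfold lev
  calc k = k * 1 * 1 := by ring
    _ ≤ k * 2 ^ k * c := Nat.mul_le_mul (Nat.mul_le_mul le_rfl Nat.one_le_two_pow) hc

/-- Elements of `F A B⁻¹`. -/
lemma mem_prod {F : Finset FS} {c : ℕ} {x : FS} (hx : x ∈ (F : Set FS) * (setA c * setB⁻¹)) :
    ∃ f ∈ F, ∃ (i : ℕ) (a : Perm ℕ) (j : ℕ) (b : Perm ℕ), Fix i a ∧
      (∀ k, 0 < k → lev c k ≤ i → ¬ Hole k (lev c k) a) ∧ Fix j b ∧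
      (x : Perm ℕ) = (f : Perm ℕ) * a * blk (sA i) * blk (sB j) * b := by
  obtain ⟨f, hf, y, hy, rfl⟩ := Set.mem_mul.1 hx
  obtain ⟨g, hg, h, hh, rfl⟩ := Set.mem_mul.1 hy
  obtain ⟨i, a, ha, hol, hga⟩ := hg
  obtain ⟨j, b, hb, hhb⟩ := Set.mem_inv.1 hh
  refine ⟨f, hf, i, a, j, b⁻¹, ha, hol, hb.inv, ?_⟩
  have h1 : (h : Perm ℕ) = blk (sB j) * b⁻¹ := by
    have h2 : ((h⁻¹ : FS) : Perm ℕ) = (h : Perm ℕ)⁻¹ := rfl
    rw [h2] at hhb
    rw [← inv_inv (h : Perm ℕ), hhb, mul_inv_rev, blk_inv]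
  simp only [Subgroup.coe_mul, hga, h1]
  group

/-- The combinatorial heart: no translate of the test set lies in `F A B⁻¹`. -/
lemma not_thick (c : ℕ) (hc : 0 < c) (F : Finset FS) :
    ¬ Thick ((F : Set FS) * (setA c * setB⁻¹)) := by
  classical
  intro hT
  obtain ⟨k₀, hk₀⟩ := exists_Gn F
  set k := k₀ + 1 with hkdef
  have hk : 0 < k := by omega
  have hFk : ∀ f ∈ F, Fix k (f : Perm ℕ) := fun f hf => mem_Gn.1 (hk₀ k (by omega) hf)
  set m := lev c k with hm
  have hkm : k ≤ m := le_lev hc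
  have hmpos : 0 < m := by omega
  set U := 4 * sA m with hU
  have hsm := lt_sA m
  -- the far transposition
  let u : FS := ⟨Equiv.swap 0 U, U + 1, Fix.swap (by omega) (by omega)⟩
  obtain ⟨x, hx⟩ := hT (Gn m ∪ (Gn m).image (fun g => g * u))
  -- Step 1: a point with large index
  have step1 : ∃ x' : FS, (∀ g ∈ Gn m, g * x' ∈ (F : Set FS) * (setA c * setB⁻¹)) ∧
      ∃ f ∈ F, ∃ (i : ℕ) (a : Perm ℕ) (j : ℕ) (b : Perm ℕ), Fix i a ∧ Fix j b ∧ m ≤ i ∧
      (x' : Perm ℕ) = (f : Perm ℕ) * a * blk (sA i) * blk (sB j) * b := by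
    by_contra hcon
    push Not at hcon
    have hx1 : ∀ g ∈ Gn m, g * x ∈ (F : Set FS) * (setA c * setB⁻¹) :=
      fun g hg => hx g (Finset.mem_union_left _ hg)
    have hx2 : ∀ g ∈ Gn m, g * (u * x) ∈ (F : Set FS) * (setA c * setB⁻¹) := by
      intro g hg
      have := hx (g * u) (Finset.mem_union_right _ (Finset.mem_image.2 ⟨g, hg, rfl⟩))
      rwa [mul_assoc] at this
    have m1 := hx1 1 (one_mem_Gn m)
    have m2 := hx2 1 (one_mem_Gn m)
    rw [one_mul] at m1 m2
    obtain ⟨f, hf, i, a, j, b, ha, -, hb, e1⟩ := mem_prod m1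
    obtain ⟨f', hf', i', a', j', b', ha', -, hb', e2⟩ := mem_prod m2
    have hi : i < m := by
      by_contra hc'
      exact hcon x hx1 f hf i a j b ha hb (not_lt.mp hc') e1
    have hi' : i' < m := by
      by_contra hc'
      exact hcon (u * x) hx2 f' hf' i' a' j' b' ha' hb' (not_lt.mp hc') e2
    set C : Perm ℕ := (f : Perm ℕ) * a * blk (sA i) with hC
    set C' : Perm ℕ := (f' : Perm ℕ) * a' * blk (sA i') with hC'
    have hCf : Fix (2 * sA m) C :=
      Fix.mul (Fix.mul ((hFk f hf).mono (by omega)) (ha.mono (by omega)))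
        ((fix_blk _).mono (Nat.mul_le_mul le_rfl (sA_mono hi.le)))
    have hCf' : Fix (2 * sA m) C' :=
      Fix.mul (Fix.mul ((hFk f' hf').mono (by omega)) (ha'.mono (by omega)))
        ((fix_blk _).mono (Nat.mul_le_mul le_rfl (sA_mono hi'.le)))
    have e3 : (Equiv.swap 0 U : Perm ℕ) * (C * blk (sB j) * b) = C' * blk (sB j') * b' := by
      rw [← e1, ← e2]; rfl
    set R : Perm ℕ := blk (sB j') * (b' * b⁻¹) * blk (sB j) with hR
    have e4 : C'⁻¹ * (Equiv.swap 0 U : Perm ℕ) * C = R := by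
      have h3 : (Equiv.swap 0 U : Perm ℕ) * C = C' * blk (sB j') * b' * b⁻¹ * (blk (sB j))⁻¹ := by
        rw [← e3]; group
      rw [mul_assoc, h3, blk_inv, hR]; group
    -- behaviour at `U`
    have hz : R U < 2 * sA m := by
      rw [← e4, Perm.mul_apply, Perm.mul_apply, hCf U (by omega), Equiv.swap_apply_right]
      exact hCf'.inv.lt (by omega)
    have hfar : ∀ k, U < k → R k = k := by
      intro k hk
      rw [← e4, Perm.mul_apply, Perm.mul_apply, hCf k (by omega),
        Equiv.swap_apply_of_ne_of_ne (by omega) (by omega), hCf'.inv k (by omega)]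
    have hTop : Top R U := ⟨by omega, hfar⟩
    have hj := lt_sB j
    have hj' := lt_sB j'
    have hBeta : ∀ n, j ≤ n → j' ≤ n → Fix n (b' * b⁻¹) := fun n h1 h2 =>
      (hb'.mono h2).mul (hb.mono h1).inv
    rcases lt_trichotomy (sB j) (sB j') with h1 | h1 | h1
    · -- `j'` dominates
      have p1 : 2 * sB j ≤ sB j' := pow_cmp h1
      have t1 : Top R (2 * sB j' - 1) := by
        constructor
        · have q1 : blk (sB j) (2 * sB j' - 1) = 2 * sB j' - 1 := fix_blk _ _ (by omega)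
          have q2 : (b' * b⁻¹) (2 * sB j' - 1) = 2 * sB j' - 1 :=
            hBeta (sB j') (by omega) (by omega) _ (by omega)
          have q3 : blk (sB j') (2 * sB j' - 1) = sB j' - 1 := by
            rw [blk_apply]; unfold blkFun; split_ifs <;> omega
          rw [hR, Perm.mul_apply, Perm.mul_apply, q1, q2, q3]
          omega
        · intro k hk
          rw [hR, Perm.mul_apply, Perm.mul_apply, fix_blk (sB j) k (by omega),
            hBeta (sB j') (by omega) (by omega) k (by omega), fix_blk (sB j') k (by omega)]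
      have := hTop.unique t1
      omega
    · have hjj := sB_inj h1
      subst hjj
      have hlow : ∀ k, k < sB j → R k = k := fun k hk =>
        conj_fix hj.le (hBeta j le_rfl le_rfl) hk
      have hR2 : Fix (2 * sB j) R :=
        Fix.mul (Fix.mul (fix_blk _) (hBeta _ (by omega) (by omega))) (fix_blk _)
      have q1 := hTop.lt_of_fix hR2
      have q2 : sB j ≤ R U := by
        by_contra hc'
        exact hTop.1 (R.injective (hlow (R U) (not_le.mp hc')))
      omega
    · have p1 : 2 * sB j' ≤ sB j := pow_cmp h1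
      have t1 : Top (blk (sB j') * (b' * b⁻¹) * blk 0 * blk (sB j) * 1) (2 * sB j - 1) :=
        top_right (by omega) (by omega) (le_refl (sB j)) (Nat.zero_le _)
          (Fix.mul ((fix_blk _).mono p1) (hBeta _ (by omega) (by omega))) (Fix.one 0)
      rw [blk_zero, mul_one, mul_one] at t1
      have := hTop.unique t1
      omega
  obtain ⟨x', hx', f, hf, i, a, j, b, ha, hb, hmi, e1⟩ := step1
  -- Step 2: hit the hole
  obtain ⟨h, hh, hhole⟩ := exists_hole hk hmpos ((f : Perm ℕ) * a)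
  have hfa : Fix i ((f : Perm ℕ) * a) := ((hFk f hf).mono (by omega)).mul ha
  let hFS : FS := ⟨h, m, hh⟩
  have m1 := hx' hFS (mem_Gn.2 hh)
  obtain ⟨f', hf', i', a', j', b', ha', hol', hb', e2⟩ := mem_prod m1
  have e3 : (h * ((f : Perm ℕ) * a)) * blk (sA i) * blk (sB j) * b =
      ((f' : Perm ℕ) * a') * blk (sA i') * blk (sB j') * b' := by
    rw [← e2]
    have h4 : ((hFS * x' : FS) : Perm ℕ) = h * (x' : Perm ℕ) := rfl
    rw [h4, e1]; group
  have hff' : Fix (max i' m) ((f' : Perm ℕ) * a') :=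
    ((hFk f' hf').mono (hkm.trans (le_max_right _ _))).mul (ha'.mono (le_max_left _ _))
  obtain ⟨hii, haa⟩ := rigid hmi ((hh.mono hmi).mul hfa) hb hff' hb' e3
  subst hii
  rw [← haa] at hhole
  exact hol' k hk hmi (hhole.mul_left hkm (hFk f' hf'))

/-! ## Densities -/

/-- Every density is at most one. -/
lemma bddAbove_density {G : Type*} [Group G] (A : Set G) :
    BddAbove {α : ℝ | ∀ (H : Finset G) (ε : ℝ), 0 < ε →
      ∃ K : Finset G, Invariant H ε K ∧ α * K.card ≤ ((A ∩ (K : Set G)).ncard : ℝ)} := by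
  refine ⟨1, fun α hα => ?_⟩
  obtain ⟨K, hK, h1⟩ := hα ∅ 1 one_pos
  have h2 : (A ∩ (K : Set G)).ncard ≤ K.card := by
    rw [← Set.ncard_coe_finset]
    exact Set.ncard_le_ncard Set.inter_subset_right K.finite_toSet
  have h3 : (0 : ℝ) < K.card := by exact_mod_cast hK.1.card_pos
  have h4 : α * K.card ≤ 1 * K.card := by
    rw [one_mul]; exact h1.trans (by exact_mod_cast h2)
  exact le_of_mul_le_mul_right h4 h3

lemma density_le_one (A : Set FS) : density A ≤ 1 := by
  refine csSup_le ⟨0, fun H ε hε => ?_⟩ ?_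
  · obtain ⟨K, hK⟩ := amenable_FS H ε hε
    exact ⟨K, hK, by rw [zero_mul]; positivity⟩
  · intro α hα
    obtain ⟨K, hK, h1⟩ := hα ∅ 1 one_pos
    have h2 : (A ∩ (K : Set FS)).ncard ≤ K.card := by
      rw [← Set.ncard_coe_finset]
      exact Set.ncard_le_ncard Set.inter_subset_right K.finite_toSet
    have h3 : (0 : ℝ) < K.card := by exact_mod_cast hK.1.card_pos
    have h4 : α * K.card ≤ 1 * K.card := by
      rw [one_mul]; exact h1.trans (by exact_mod_cast h2)
    exact le_of_mul_le_mul_right h4 h3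

/-- block swap as an element of `FS` -/
def blkFS (s : ℕ) : FS := ⟨blk s, 2 * s, fix_blk s⟩

lemma density_B : density setB = 1 := by
  refine le_antisymm (density_le_one _) (le_csSup (bddAbove_density _) ?_)
  intro H ε hε
  obtain ⟨n, hn⟩ := exists_Gn H
  refine ⟨_, invariant_coset H ε hε n (hn n le_rfl) (blkFS (sB n)), ?_⟩
  have h1 : setB ∩ (((Gn n).map (mulRightEmbedding (blkFS (sB n))) : Finset FS) : Set FS) =
      (((Gn n).map (mulRightEmbedding (blkFS (sB n))) : Finset FS) : Set FS) := by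
    refine Set.inter_eq_right.2 ?_
    intro g hg
    rw [Finset.mem_coe, Finset.mem_map] at hg
    obtain ⟨b, hb, rfl⟩ := hg
    exact ⟨n, b, mem_Gn.1 hb, rfl⟩
  rw [h1, Set.ncard_coe_finset, one_mul]

open Classical in
/-- the part of `Gn n` where the value `v` is taken first among the values `< M` -/
noncomputable def firstSet (n M v : ℕ) : Finset FS :=
  (Gn n).filter fun σ : FS => ∀ u < M, (σ : Perm ℕ)⁻¹ v ≤ (σ : Perm ℕ)⁻¹ u

lemma card_firstSet {n M v : ℕ} (hMn : M ≤ n) (hv : v < M) :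
    M * (firstSet n M v).card ≤ (Gn n).card := by
  classical
  -- all `firstSet n M u` have at least the cardinality of `firstSet n M v`
  have h1 : ∀ u ∈ Finset.range M, (firstSet n M v).card ≤ (firstSet n M u).card := by
    intro u hu
    rw [Finset.mem_range] at hu
    have hsw : Fix M (Equiv.swap u v) := Fix.swap hu hv
    let s : FS := ⟨Equiv.swap u v, M, hsw⟩
    refine Finset.card_le_card_of_injOn (fun σ => s * σ) ?_
      (fun _ _ _ _ h => mul_left_cancel h)
    intro σ hσ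
    rw [Finset.mem_coe, firstSet, Finset.mem_filter] at hσ ⊢
    refine ⟨mem_Gn.2 ((hsw.mono hMn).mul (mem_Gn.1 hσ.1)), fun w hw => ?_⟩
    have e1 : ∀ z, ((s * σ : FS) : Perm ℕ)⁻¹ z = (σ : Perm ℕ)⁻¹ (Equiv.swap u v z) := by
      intro z
      have : ((s * σ : FS) : Perm ℕ) = Equiv.swap u v * (σ : Perm ℕ) := rfl
      rw [this, mul_inv_rev, Perm.mul_apply, Equiv.swap_inv]
    rw [e1, e1, Equiv.swap_apply_left]
    exact hσ.2 _ (hsw.lt hw)
  have h2 : (Finset.range M).card • (firstSet n M v).card ≤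
      ∑ u ∈ Finset.range M, (firstSet n M u).card :=
    Finset.card_nsmul_le_sum _ _ _ h1
  have h3 : ∑ u ∈ Finset.range M, (firstSet n M u).card ≤ (Gn n).card := by
    rw [← Finset.card_biUnion]
    · refine Finset.card_le_card ?_
      intro σ hσ
      rw [Finset.mem_biUnion] at hσ
      obtain ⟨u, -, hu⟩ := hσ
      exact (Finset.mem_filter.1 hu).1
    · intro a ha b hb hab
      rw [Finset.mem_coe, Finset.mem_range] at ha hb
      change Disjoint (firstSet n M a) (firstSet n M b)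
      rw [Finset.disjoint_left]
      intro σ h4 h5
      have h6 := (Finset.mem_filter.1 h4).2 b hb
      have h7 := (Finset.mem_filter.1 h5).2 a ha
      exact hab ((σ : Perm ℕ)⁻¹.injective (le_antisymm h6 h7))
  rw [Finset.card_range, smul_eq_mul] at h2
  exact h2.trans h3

open Classical in
/-- the part of `Gn n` lying in the hole `(k, M)` -/
lemma card_hole {n k M : ℕ} (hkM : k ≤ M) (hMn : M ≤ n) :
    M * ((Gn n).filter fun σ : FS => Hole k M (σ : Perm ℕ)).card ≤ k * (Gn n).card := by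
  have h1 : ((Gn n).filter fun σ : FS => Hole k M (σ : Perm ℕ)) ⊆
      (Finset.range k).biUnion fun v => firstSet n M v := by
    intro σ hσ
    rw [Finset.mem_filter] at hσ
    obtain ⟨h2, v, hv, h3⟩ := hσ
    exact Finset.mem_biUnion.2 ⟨v, Finset.mem_range.2 hv, Finset.mem_filter.2 ⟨h2, h3⟩⟩
  calc M * ((Gn n).filter fun σ : FS => Hole k M (σ : Perm ℕ)).card
      ≤ M * ∑ v ∈ Finset.range k, (firstSet n M v).card :=
        Nat.mul_le_mul le_rfl ((Finset.card_le_card h1).trans Finset.card_biUnion_le)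
    _ = ∑ v ∈ Finset.range k, M * (firstSet n M v).card := Finset.mul_sum _ _ _
    _ ≤ ∑ v ∈ Finset.range k, (Gn n).card := by
        refine Finset.sum_le_sum fun v hv => ?_
        exact card_firstSet hMn (lt_of_lt_of_le (Finset.mem_range.1 hv) hkM)
    _ = k * (Gn n).card := by simp

lemma sum_half (n : ℕ) : ∑ k ∈ Finset.range n, (1 / 2 : ℝ) ^ (k + 1) ≤ 1 := by
  have h : ∀ n : ℕ, ∑ k ∈ Finset.range n, (1 / 2 : ℝ) ^ (k + 1) = 1 - (1 / 2) ^ n := by
    intro n
    induction n with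
    | zero => simp
    | succ n ih => rw [Finset.sum_range_succ, ih]; ring
  rw [h]
  have : (0 : ℝ) ≤ (1 / 2) ^ n := by positivity
  linarith

lemma density_A (c : ℕ) (hc : 0 < c) : 1 - 1 / (c : ℝ) ≤ density (setA c) := by
  classical
  refine le_csSup (bddAbove_density _) ?_
  intro H ε hε
  obtain ⟨n, hn⟩ := exists_Gn H
  refine ⟨_, invariant_coset H ε hε n (hn n le_rfl) (blkFS (sA n)), ?_⟩
  set g := blkFS (sA n) with hg
  -- the good part of `Gn n`
  set T := (Gn n).filter fun σ : FS => ∀ k, 0 < k → lev c k ≤ n → ¬ Hole k (lev c k) (σ : Perm ℕ)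
    with hT
  have h1 : ((T.map (mulRightEmbedding g) : Finset FS) : Set FS) ⊆
      setA c ∩ (((Gn n).map (mulRightEmbedding g) : Finset FS) : Set FS) := by
    intro x hx
    rw [Finset.mem_coe, Finset.mem_map] at hx
    obtain ⟨a, ha, rfl⟩ := hx
    rw [hT, Finset.mem_filter] at ha
    exact ⟨⟨n, a, mem_Gn.1 ha.1, ha.2, rfl⟩,
      Finset.mem_coe.2 (Finset.mem_map.2 ⟨a, ha.1, rfl⟩)⟩
  have h2 : T.card ≤ (setA c ∩ (((Gn n).map (mulRightEmbedding g) : Finset FS) : Set FS)).ncard := by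
    rw [← Finset.card_map (mulRightEmbedding g), ← Set.ncard_coe_finset]
    exact Set.ncard_le_ncard h1 ((Finset.finite_toSet _).inter_of_right _)
  -- bad part
  have h3 : (Gn n).card ≤ T.card +
      ∑ k ∈ (Finset.range n).filter (fun k => lev c (k + 1) ≤ n),
        ((Gn n).filter fun σ : FS => Hole (k + 1) (lev c (k + 1)) (σ : Perm ℕ)).card := by
    refine (Finset.card_le_card (t := T ∪ ((Finset.range n).filter
      (fun k => lev c (k + 1) ≤ n)).biUnion fun k =>
        ((Gn n).filter fun σ : FS => Hole (k + 1) (lev c (k + 1)) (σ : Perm ℕ))) ?_).trans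
      ((Finset.card_union_le _ _).trans (Nat.add_le_add_left Finset.card_biUnion_le _))
    intro σ hσ
    by_cases hT' : σ ∈ T
    · exact Finset.mem_union_left _ hT'
    · refine Finset.mem_union_right _ ?_
      rw [hT, Finset.mem_filter] at hT'
      push Not at hT'
      obtain ⟨k, hk, hlev, hhole⟩ := hT' hσ
      obtain ⟨k, rfl⟩ : ∃ l, k = l + 1 := ⟨k - 1, by omega⟩
      refine Finset.mem_biUnion.2 ⟨k, Finset.mem_filter.2 ⟨Finset.mem_range.2 ?_, hlev⟩,
        Finset.mem_filter.2 ⟨hσ, hhole⟩⟩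
      have := le_lev (k := k + 1) hc
      omega
  have h4 : ∀ k ∈ (Finset.range n).filter (fun k => lev c (k + 1) ≤ n),
      ((((Gn n).filter fun σ : FS => Hole (k + 1) (lev c (k + 1)) (σ : Perm ℕ)).card : ℕ) : ℝ) ≤
        (1 / 2 : ℝ) ^ (k + 1) * ((Gn n).card / c) := by
    intro k hk
    rw [Finset.mem_filter] at hk
    have h5 := card_hole (le_lev (k := k + 1) hc) hk.2
    have h6 : ((lev c (k + 1) : ℕ) : ℝ) *
        (((Gn n).filter fun σ : FS => Hole (k + 1) (lev c (k + 1)) (σ : Perm ℕ)).card : ℝ) ≤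
        ((k + 1 : ℕ) : ℝ) * (Gn n).card := by exact_mod_cast h5
    have hcp : (0 : ℝ) < c := by exact_mod_cast hc
    have h7 : ((lev c (k + 1) : ℕ) : ℝ) = ((k + 1 : ℕ) : ℝ) * (2 ^ (k + 1) * c) := by
      unfold lev; push_cast; ring
    rw [h7, mul_assoc] at h6
    have h8 : (0 : ℝ) < ((k + 1 : ℕ) : ℝ) := by positivity
    have h9 := le_of_mul_le_mul_left h6 h8
    have h10 : (0 : ℝ) < 2 ^ (k + 1) * c := by positivity
    have h11 : (1 / 2 : ℝ) ^ (k + 1) * ((Gn n).card / c) = (Gn n).card / (2 ^ (k + 1) * c) := by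
      rw [one_div, inv_pow]; field_simp
    rw [h11, le_div_iff₀ h10, mul_comm]
    exact h9
  have h5 : ((Gn n).card : ℝ) ≤ T.card + (Gn n).card / c := by
    have h6 : ((Gn n).card : ℝ) ≤ T.card +
        ∑ k ∈ (Finset.range n).filter (fun k => lev c (k + 1) ≤ n),
        (((Gn n).filter fun σ : FS => Hole (k + 1) (lev c (k + 1)) (σ : Perm ℕ)).card : ℝ) := by
      exact_mod_cast h3
    refine h6.trans (add_le_add le_rfl ((Finset.sum_le_sum h4).trans ?_))
    rw [← Finset.sum_mul]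
    have h7 : ∑ k ∈ (Finset.range n).filter (fun k => lev c (k + 1) ≤ n), (1 / 2 : ℝ) ^ (k + 1)
        ≤ 1 := (Finset.sum_le_sum_of_subset_of_nonneg (Finset.filter_subset _ _)
          (fun _ _ _ => by positivity)).trans (sum_half n)
    calc _ ≤ 1 * (((Gn n).card : ℝ) / c) := mul_le_mul_of_nonneg_right h7 (by positivity)
      _ = _ := one_mul _
  rw [Finset.card_map]
  have h6 : (T.card : ℝ) ≤ ((setA c ∩ (((Gn n).map (mulRightEmbedding g) : Finset FS) :
      Set FS)).ncard : ℝ) := by exact_mod_cast h2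
  calc (1 - 1 / (c : ℝ)) * ((Gn n).card : ℝ) = (Gn n).card - (Gn n).card / c := by ring
    _ ≤ T.card := by linarith
    _ ≤ _ := h6

/-- `FS` is countable. -/
lemma countable_FS : Countable FS := by
  have h : (Set.univ : Set FS) = ⋃ n, {σ : FS | Fix n (σ : Perm ℕ)} := by
    ext σ
    simp only [Set.mem_univ, Set.mem_iUnion, true_iff]
    exact σ.2
  rw [← Set.countable_univ_iff, h]
  exact Set.countable_iUnion fun n => (finite_fix n).countable

/-- `FS` is locally finite. -/
lemma locallyFinite_FS (S : Finset FS) : (Subgroup.closure (S : Set FS) : Set FS).Finite := by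
  obtain ⟨n, hn⟩ := exists_Gn S
  refine (finite_fix n).subset ?_
  let Kn : Subgroup FS :=
    { carrier := {σ | Fix n (σ : Perm ℕ)}
      one_mem' := Fix.one n
      mul_mem' := fun h1 h2 => h1.mul h2
      inv_mem' := fun h => h.inv }
  have h1 : Subgroup.closure (S : Set FS) ≤ Kn := by
    rw [Subgroup.closure_le]
    intro σ hσ
    exact mem_Gn.1 (hn n le_rfl hσ)
  exact h1

/-- Main theorem: in a countable locally finite (amenable) group. -/
theorem main :
    ∃ (G : Type) (_ : Group G), Countable G ∧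
      (∀ S : Finset G, (Subgroup.closure (S : Set G) : Set G).Finite) ∧
      Amenable G ∧ ∀ ε : ℝ, 0 < ε →
      ∃ A B : Set G, 0 < density A ∧ 1 - ε ≤ density A ∧ density B = 1 ∧
        (∀ k : ℕ, ¬ PiecewiseSyndetic k (A * B⁻¹)) ∧
        ¬ PiecewiseSyndetic ⌊1 / (density A * density B)⌋₊ (A * B⁻¹) := by
  refine ⟨FS, inferInstance, countable_FS, locallyFinite_FS, amenable_FS, fun ε hε => ?_⟩
  obtain ⟨c, hc⟩ := exists_nat_gt (max 1 (1 / ε))
  have hc1 : (1 : ℝ) < c := (le_max_left _ _).trans_lt hc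
  have hc2 : 1 / ε < c := (le_max_right _ _).trans_lt hc
  have hc0 : 0 < c := by
    rcases Nat.eq_zero_or_pos c with h | h
    · subst h; norm_num at hc1
    · exact h
  have hk : ∀ k : ℕ, ¬ PiecewiseSyndetic k (setA c * setB⁻¹) := by
    rintro k ⟨F, -, hF⟩
    exact not_thick c hc0 F hF
  have h1 := density_A c hc0
  have h2 : 1 / (c : ℝ) < 1 := by rw [div_lt_one (by linarith)]; exact hc1
  have h3 : 1 / (c : ℝ) < ε := by
    rw [div_lt_iff₀ (by linarith)]
    rw [div_lt_iff₀ hε] at hc2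
    linarith
  exact ⟨setA c, setB, by linarith, by linarith, density_B, hk, hk _⟩

end Pool.Agent.Helper14.PwSynd
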